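import Pool.Agent.K4H39.AJ.Abelian

/-!
# The p-adic Abel-Jacobi map on abelian varieties, and translations of cycles

Let `k` be a number field, `C` the Chow groups with rational coefficients of the smooth projective
geometrically irreducible varieties over `k` (in the form of their formal properties), `H` the étale
cohomology with coefficients the `p`-adic numbers, and `M` the `p`-adic Abel-Jacobi maps
`CH^i(X)^0 → H^1(k, H^(2i-1)(X)(i))`, which Beilinson and Bloch conjecture to be injective. `P` is the
point `Spec k`; the varieties with a group law are the abelian varieties, and the morphisms from `P` to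
`A` are the rational points of `A`.

**Theorem.** For each `r` the following are equivalent:
1. for all abelian varieties `A` over `k` the Abel-Jacobi map is injective on the algebraically trivial
   cycles of dimension `r` on `A`;
2. for all abelian varieties `A` over `k`, `D · Γ = 0` for `D` in `Pic^0(A)` and `Γ` in
   `CH_(r+1)(A)^0`.
And for each `s` each of these statements for all `r ≥ s` is equivalent to:
3. for all abelian varieties `A` over `k` and all `r ≥ s`, the **homologically trivial cycles of
   dimension `r` on `A` are invariant under translations** by the rational points of `A`, modulo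
   rational equivalence.

So the conjecture of Beilinson and Bloch for algebraically trivial cycles on abelian varieties over
number fields is the statement that the translations by rational points act trivially on the
homologically trivial cycles, and it does not depend on the prime `p`. (Over the complex numbers this
is far from true, already for zero-cycles on abelian surfaces, by Mumford's theorem.)

The proof. For `z` in `CH(A)^0`, `τ_a^* z - z = (m^* z)_* ([a] - [0])`, where `m^* z` is a homologically
trivial cycle on `A × A`. Write `[a] - [0]` by a divisor on the Jacobian `J` of a curve: this becomes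
the direct image of a product of a homologically trivial divisor and a homologically trivial cycle on
`J × A`. So 2 implies 3. Conversely each `D` in `Pic^0(A)` is of the form `τ_a^* L - L` with rational
coefficients, and `(τ_a^* L - L) · Γ = τ_a^* (L · Γ) - L · Γ = 0` if `Γ` and `L · Γ` are invariant.
-/

set_option autoImplicit false

open CategoryTheory AlgebraicGeometry

universe u v w

namespace Pool.Agent.Results.MP_386e47_ag.AbelianVarieties

open Pool.Agent.H914 Pool.Agent.H914.VarClass Pool.Agent.H914.VarClass.Obj Pool.Agent.W492.BB
  Pool.Agent.W550.Corr Pool.Agent.TH133 Pool.Agent.K4H39.AJ

/-- **The Abel-Jacobi map on abelian varieties and translations.** -/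
theorem result {k : Type u} [Field k] {𝒱 : VarClass k} (C : TheoryData.{u, v, 0} 𝒱 ℚ)
    [IsChowProj C] {K : Type w} [Field K] (H : WeilTheoryData.{u, v, w} C K) [IsWeilProj H]
    {P : 𝒱.Obj} (hP : Limits.IsTerminal P) (hP0 : P.dim = 0) (hR : CurveProperties H)
    (hQ : AbelianProperties H hP) (M : AJData H) (hM : M.IsAJ) :
    -- cycles of dimension `r`
    (∀ r : ℕ, InjectiveOnAbelian hP M r ↔ ProductsVanishOnAbelian hP H r) ∧
    -- cycles of dimension at least `s`
    (∀ s : ℕ, List.TFAE [∀ r ≥ s, InjectiveOnAbelian hP M r,
      ∀ r ≥ s, ProductsVanishOnAbelian hP H r, ∀ r ≥ s, TranslationInvariant hP H r]) :=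
  ⟨fun r => inj_iff_products hM hR hQ r, fun s => abelian_tfae hP0 hM hR hQ s⟩

end Pool.Agent.Results.MP_386e47_ag.AbelianVarieties
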