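import Pool.Agent.K4H39.AJ.Dim

/-!
# The kernel of the p-adic Abel-Jacobi map on algebraically trivial cycles

Let `k` be a number field (or any finitely generated field of characteristic zero), `C` the Chow
groups with rational coefficients of the smooth projective geometrically irreducible varieties over
`k` (in the form of their formal properties), `H` the étale cohomology of the varieties over the
algebraic closure with coefficients the `p`-adic numbers, and
`aj : CH^i(X)^0 → H^1(k, H^(2i-1)(X)(i))` the Abel-Jacobi map, given by cocycles on the absolute
Galois group of `k`. Beilinson and Bloch conjecture that it is injective. (A continuous cocycle which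
is a coboundary of a vector is trivial in continuous cohomology, so there is no need to mention the
topology.) By definition an algebraically trivial cycle class is of the form `Γ_* c`, where `c` is a
zero-cycle of degree zero on a curve `T` and `Γ` is a cycle on `T × X`.

**Theorem.**
1. An algebraically trivial class `z` in `CH^i(X)` is in the kernel of the Abel-Jacobi map if and only
   if `z = Γ_* c`, where `c` is a zero-cycle of degree zero on a curve `T` and `Γ` is a
   **homologically trivial** cycle on `T × X`.
2. So on algebraically trivial cycles the kernel does not depend on the prime `p`.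
3. For each `r` the following are equivalent:
   * for all `X` the Abel-Jacobi map is injective on the algebraically trivial cycles of dimension
     `r`;
   * for all `Y` of dimension `2 r + 3`, `D · Γ = 0` for `D` in `Pic^0(Y)` and `Γ` in
     `CH_(r+1)(Y)^0`;
   * homologically trivial families of cycles of dimension `r` are constant: if `Γ` in
     `CH(T × X)` is homologically trivial then `Γ_s = Γ_t` for all points `s`, `t` of `T`.
4. For `r = 0`: the conjecture of Beilinson and Bloch for the zero-cycles on **all** varieties over `k`
   is equivalent to `D · Γ = 0` for the divisors `D` in `Pic^0(Y)` and the one-dimensional cycles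
   `Γ` in `CH_1(Y)^0` on **threefolds** `Y`.

No standard conjecture and no finite-dimensionality is assumed. The known facts which enter are the
formal properties of Chow groups, étale cohomology and Abel-Jacobi maps, the injectivity for divisors
(Mordell-Weil), the purity of étale cohomology, the complete reducibility and the endomorphisms of
Jacobians of curves (`CurveProperties`), and the hyperplane section theorems (`HyperplaneSections`).

The proof of 1. Let `z = Γ_* c` be in the kernel. The kernel of `Γ_*` on `H^1(T)` is the image of an
algebraic self-correspondence `e` of `T`. As `Γ_*` is injective on `(1 - e) H^1(T)` and the weights are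
`-1`, it is injective on the Galois cohomology of this space. So `(1 - e)_* c` is in the kernel of the
Abel-Jacobi map of `T`, and zero. So `z = (Γ ∘ e)_* c`, and `Γ ∘ e` is homologically trivial.
-/

set_option autoImplicit false

open CategoryTheory AlgebraicGeometry

universe u v w w'

namespace Pool.Agent.Results.MP_386e47_ag.AlgebraicallyTrivialCycles

open Pool.Agent.H914 Pool.Agent.H914.VarClass Pool.Agent.H914.VarClass.Obj Pool.Agent.W492.BB
  Pool.Agent.W550.Corr Pool.Agent.TH133 Pool.Agent.K4H39.AJ

/-- **The kernel of the `p`-adic Abel-Jacobi map on algebraically trivial cycles.** -/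
theorem result {k : Type u} [Field k] {𝒱 : VarClass k} (C : TheoryData.{u, v, 0} 𝒱 ℚ)
    [IsChowProj C] {K : Type w} [Field K] (H : WeilTheoryData.{u, v, w} C K) [IsWeilProj H]
    (hP : CurveProperties H) (hL : HyperplaneSections H) (A : AJData H) (hA : A.IsAJ) :
    -- the kernel
    KernelIsDoublyTrivial A ∧
    -- independence of the prime
    (∀ (K' : Type w') [Field K'] (H' : WeilTheoryData.{u, v, w'} C K') [IsWeilProj H']
      (A' : AJData H'), CurveProperties H' → A'.IsAJ → SameHomEquiv H H' → SameKernel A A') ∧
    -- cycles of dimension `r`
    (∀ r : ℕ, List.TFAE [InjectiveOnAlgTrivial A r, ProductsVanish H r,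
      FamiliesAreConstant H r]) ∧
    -- zero-cycles and threefolds
    (InjectiveOnZeroCycles A ↔ ProductsVanish H 0) := by
  refine ⟨fun X i z hz => kernel_iff hA.isKernel hP hz, ?_, fun r => main_tfae hA hP hL r, ?_⟩
  · intro K' _ H' _ A' hP' hA' hcl X i z hz
    have hhom : ∀ {X : 𝒱.Obj} {i : ℤ} {z : C.A X}, Hom0 H i z ↔ Hom0 H' i z := by
      intro X i z
      exact and_congr Iff.rfl (hcl X z)
    have hz' : AlgTrivial H' i z := by
      obtain ⟨T, Γ, c, hT, hc, hΓ, rfl⟩ := hz
      exact ⟨T, Γ, c, hT, hhom.1 hc, hΓ, rfl⟩
    rw [kernel_iff hA.isKernel hP hz, kernel_iff hA'.isKernel hP' hz']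
    constructor
    · rintro ⟨T, Γ, c, hT, hc, hΓ, rfl⟩
      exact ⟨T, Γ, c, hT, hhom.1 hc, hhom.1 hΓ, rfl⟩
    · rintro ⟨T, Γ, c, hT, hc, hΓ, rfl⟩
      exact ⟨T, Γ, c, hT, hhom.2 hc, hhom.2 hΓ, rfl⟩
  · exact (zeroCycles_iff hP).trans ((main_tfae hA hP hL 0).out 0 1)

end Pool.Agent.Results.MP_386e47_ag.AlgebraicallyTrivialCycles
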