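import Pool.Agent.K4H67.QW.Acts
import Pool.Agent.K4H67.QW.AJ

/-!
# The p-adic Abel-Jacobi map: the growth of its kernel on the products `X ^ m × Z` is quantized

Let `Z` be an arbitrary smooth projective variety over a number field `K`, and `X` a smooth projective
variety over `K` with finite-dimensional motive (in the sense of Kimura and O'Sullivan), such that
numerical and homological equivalence agree on the powers of `X`: for instance the point, an elliptic
curve, an abelian variety, or a product of curves; for these both properties are theorems (Shermenev,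
Deninger - Murre, Kimura; Lieberman). Let `b_m` be the dimension of the space of the classes of
algebraic cycles in the cohomology `H(X ^ m)` with rational coefficients, and `N_m` the kernel of the
`p`-adic Abel-Jacobi map on the homologically trivial cycles on `X ^ m × Z` (of all codimensions), or
the common kernel for a set `S` of prime numbers.

**Theorem.** Either the quotients `dim N_m / b_m` converge to an integer `κ ≥ 0`, and `κ = 0` if and only
if the Abel-Jacobi map is injective on `X ^ m × Z` for **all** `m ≥ 0`, in particular on `Z`; or for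
every `κ` one has `dim N_m ≥ κ b_m` for all sufficiently large `m`.

So there is a gap: the Abel-Jacobi map is injective on all the products `X ^ m × Z` if and only if
`dim N_m ≤ (1 - ε) b_m` for one `ε > 0` and infinitely many `m`. (A nonzero element of `N_n` implies
trivially only `dim N_m ≥ b_(m-n)`, that is, about `b_m / D ^ n`, `D` the total Betti number of `X`.)
The numbers `b_m` grow like `D ^ m`, up to a polynomial in `m`: if the Abel-Jacobi map is not injective
on one of the products then `dim N_m ≥ D ^ m / (c (m + 1) ^ c)` for all large `m`. For `Z` the point one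
gets the Abel-Jacobi maps of the powers of `X`.

The vocabulary: `ChowPowers`, `IsChow`, `Nilpotence`, `NumIsHom`, `classDim` in
`Pool.Agent.K4H67.QW.Defs`; `ChowOver`, `ChowOver.IsChow` in `Pool.Agent.K4H67.QW.Over`;
`AbelJacobi`, `IsAbelJacobi`, `kernel` in `Pool.Agent.K4H67.QW.AJ`.
-/

set_option autoImplicit false

open Filter Topology Module Cardinal Pool.Agent.K4H67.QW

universe u v w

namespace Pool.Agent.Results.MP_386e47_ag.KernelQuantization

variable {X : ChowPowers.{u} ℚ} {Z : ChowOver.{u, w} X} {S : Type} {A : S → AbelJacobi.{u, v, w} Z}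

/-- The Abel-Jacobi map is injective on the homologically trivial cycles on `X ^ m × Z`, for all
`m ≥ 0` (for a set `S` of prime numbers: the intersection of the kernels is zero). -/
def IsInjective (A : S → AbelJacobi.{u, v, w} Z) : Prop :=
  ∀ (m : ℕ) (z : Z.CH m), Z.cl z = 0 → (∀ s, (A s).IsZero m z) → z = 0

/-- The dimension of the kernel `N_m`, a cardinal number. -/
noncomputable def dimN (hZ : Z.IsChow) (hA : ∀ s, (A s).IsAbelJacobi) (m : ℕ) : Cardinal.{w} :=
  Module.rank ℚ (kernel hZ hA m)

theorem bot_iff (hZ : Z.IsChow) (hA : ∀ s, (A s).IsAbelJacobi) :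
    (∀ m, kernel hZ hA m = ⊥) ↔ IsInjective A := by
  refine forall_congr' fun m => ?_
  rw [Submodule.eq_bot_iff]
  exact ⟨fun h z h1 h2 => h z ⟨h1, h2⟩, fun h z hz => h z hz.1 hz.2⟩

theorem finite_iff (hZ : Z.IsChow) (hA : ∀ s, (A s).IsAbelJacobi) (m : ℕ) :
    dimN hZ hA m < ℵ₀ ↔ FiniteDimensional ℚ (kernel hZ hA m) :=
  Module.rank_lt_aleph0_iff

/-- **The growth of the kernel of the Abel-Jacobi map on the products `X ^ m × Z` is quantized.** -/
theorem result (X : ChowPowers.{u} ℚ) (hX : X.IsChow) (hK : X.Nilpotence) (hN : X.NumIsHom)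
    (Z : ChowOver.{u, w} X) (hZ : Z.IsChow)
    {S : Type} {A : S → AbelJacobi.{u, v, w} Z} (hA : ∀ s, (A s).IsAbelJacobi) :
    -- the dichotomy
    ((∀ κ : ℕ, ∀ᶠ m in atTop, ((κ * X.classDim m : ℕ) : Cardinal) ≤ dimN hZ hA m) ∨
      ((∀ m, dimN hZ hA m < ℵ₀) ∧ ∃ κ : ℕ,
        Tendsto (fun m => ((dimN hZ hA m).toNat : ℝ) / X.classDim m) atTop (𝓝 κ) ∧
        (κ = 0 ↔ IsInjective A))) ∧
    -- the gap
    (IsInjective A ↔ ∃ ε : ℝ, 0 < ε ∧ ∃ᶠ m in atTop, dimN hZ hA m < ℵ₀ ∧
      ((dimN hZ hA m).toNat : ℝ) ≤ (1 - ε) * X.classDim m) ∧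
    -- one nonzero element of one kernel implies the growth `D ^ m`
    (¬ IsInjective A → ∃ c : ℕ, ∀ᶠ m in atTop, ((Fintype.card X.ι ^ m : ℕ) : Cardinal) ≤
      ((c * (m + 1) ^ c : ℕ) : Cardinal) * dimN hZ hA m) := by
  have hF : (overModule Z hZ).IsStable (fun m => kernel hZ hA m) := fun a c x z hz =>
    kernel_stable hZ hA x hz
  have hiff := bot_iff hZ hA
  refine ⟨?_, ⟨fun h => ⟨1, one_pos, ?_⟩, fun ⟨ε, hε, h⟩ =>
    hiff.1 (bot_of_frequently hX hK hN _ hF hε
      (h.mono fun m hm => ⟨(finite_iff hZ hA m).1 hm.1, hm.2⟩))⟩, ?_⟩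
  · rcases quant hX hK hN _ hF with h | ⟨h1, κ, h2, h3⟩
    · exact Or.inl h
    · refine Or.inr ⟨fun m => (finite_iff hZ hA m).2 (h1 m), κ, h2, fun h => hiff.1 (h3 h),
        fun h => ?_⟩
      have h4 := hiff.2 h
      have h5 : Tendsto (fun m => (finrank ℚ (kernel hZ hA m) : ℝ) / X.classDim m) atTop
          (𝓝 0) := by
        refine tendsto_const_nhds.congr fun m => ?_
        rw [h4 m, finrank_bot, Nat.cast_zero, zero_div]
      have h6 : (κ : ℝ) = 0 := tendsto_nhds_unique h2 h5
      exact_mod_cast h6
  · have h4 := hiff.2 h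
    refine (Filter.Eventually.of_forall fun m => ?_).frequently
    have h5 : dimN hZ hA m = 0 := by
      unfold dimN
      rw [h4 m, rank_bot]
    rw [h5, map_zero, Nat.cast_zero, sub_self, zero_mul]
    exact ⟨Cardinal.aleph0_pos, le_rfl⟩
  · intro h
    rw [← hiff] at h
    push Not at h
    obtain ⟨m, hm⟩ := h
    exact exp_of_ne_bot hX hK hN _ hF hm

end Pool.Agent.Results.MP_386e47_ag.KernelQuantization
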