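import Pool.Agent.K4H39.AJ.Rat

/-!
# The p-adic Abel-Jacobi map on rational varieties

Let `k` be a number field, `C` the Chow groups with rational coefficients of the smooth projective
geometrically irreducible varieties over `k` (in the form of their formal properties), `H` the étale
cohomology with coefficients the `p`-adic numbers, `R` the rational varieties, and `A` the `p`-adic
Abel-Jacobi maps `CH^i(X)^0 → H^1(k, H^(2i-1)(X)(i))`, which Beilinson and Bloch conjecture to be
injective.

**Theorem.** For each `r` the following are equivalent:
1. for all varieties `X` and all `s ≤ r` the Abel-Jacobi map is injective on the homologically trivial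
   cycles of dimension `s` on `X`;
2. for all `s ≤ r` the same for the varieties of dimension `2 s + 2`;
3. for all `s ≤ r` the Abel-Jacobi map is injective on the homologically trivial cycles of dimension
   `s + 1` on the **rational varieties of dimension `4 s + 4`**;
4. for all `s ≤ r + 1` it is injective on the homologically trivial cycles of dimension `s` on all
   rational varieties.

In particular (`r = 0`): the conjecture for zero-cycles on all varieties, the conjecture for
zero-cycles on surfaces, the conjecture for one-cycles on rational fourfolds and the conjecture for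
one-cycles on all rational varieties are equivalent; and the whole conjecture for all varieties
follows from the conjecture for the cycles of dimension `s + 1` on the rational varieties of dimension
`4 s + 4`, for all `s`.

The proof. If `dim X > 2 s + 2`, a cycle of dimension `s` lies on a smooth hypersurface section `Y` and
is homologically trivial there; the direct image is injective on the relevant cohomology group of `Y`
by the Lefschetz theorem, and a homologically trivial cycle on `Y` whose direct image in `X` is in the
kernel of the Abel-Jacobi map is in the kernel already, since no quotient of the Galois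
representation has invariants. A variety of dimension `2 s + 2` is the centre of a blow-up of a blow-up
of the projective space of dimension `4 s + 4` in points, by a general projection. Conversely, by weak
factorization, cycles on rational varieties are controlled by cycles of smaller dimension on the
centres of blow-ups.
-/

set_option autoImplicit false

open CategoryTheory AlgebraicGeometry

universe u v w

namespace Pool.Agent.Results.MP_386e47_ag.RationalFourfolds

open Pool.Agent.H914 Pool.Agent.H914.VarClass Pool.Agent.H914.VarClass.Obj Pool.Agent.W492.BB
  Pool.Agent.W550.Corr Pool.Agent.TH133 Pool.Agent.K4H39.AJ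

/-- **The Abel-Jacobi map on rational varieties.** -/
theorem result {k : Type u} [Field k] {𝒱 : VarClass k} (C : TheoryData.{u, v, 0} 𝒱 ℚ)
    [IsChowProj C] {K : Type w} [Field K] (H : WeilTheoryData.{u, v, w} C K) [IsWeilProj H]
    (hL : LefschetzSections H) (R : Set 𝒱.Obj) (hB : RationalProperties H R) (A : AJData H)
    (hA : A.IsAJ) :
    -- for each `r`, cycles of dimension at most `r`
    (∀ r : ℕ, List.TFAE [∀ s ≤ r, InjectiveOn A Set.univ s,
      ∀ s ≤ r, InjectiveOn A (OfDim Set.univ (2 * s + 2)) s,
      ∀ s ≤ r, InjectiveOn A (OfDim R (4 * s + 4)) (s + 1),
      ∀ s ≤ r + 1, InjectiveOn A R s]) ∧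
    -- for each `r`, cycles of dimension `r`
    (∀ r : ℕ, InjectiveOn A Set.univ r ↔ InjectiveOn A (OfDim Set.univ (2 * r + 2)) r) ∧
    -- zero-cycles
    List.TFAE [InjectiveOn A Set.univ 0, InjectiveOn A (OfDim Set.univ 2) 0,
      InjectiveOn A (OfDim R 4) 1, InjectiveOn A R 1] := by
  have hN : IsKernel H (fun X i z => A.IsZero X i z) := hA.isKernel
  have hF : IsFunctorialKernel H (fun X i z => A.IsZero X i z) := hA.isFunctorialKernel
  have h1 : ∀ r : ℕ, List.TFAE [∀ s ≤ r, InjectiveOn A Set.univ s,
      ∀ s ≤ r, InjectiveOn A (OfDim Set.univ (2 * s + 2)) s,
      ∀ s ≤ r, InjectiveOn A (OfDim R (4 * s + 4)) (s + 1),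
      ∀ s ≤ r + 1, InjectiveOn A R s] := fun r => rational_tfae hN hF hL hB r
  refine ⟨h1, fun r => injOn_univ_iff hN hF hL r, ?_⟩
  have h0 := h1 0
  simp only [Nat.le_zero, forall_eq] at h0
  tfae_have 1 ↔ 2 := h0.out 0 1
  tfae_have 1 ↔ 3 := h0.out 0 2
  tfae_have 4 → 3 := fun h X hX => h X hX.1
  tfae_have 1 → 4 := by
    intro h
    have h4 : ∀ s ≤ 0 + 1, InjectiveOn A R s := ((h1 0).out 0 3).1 (fun s hs => by
      obtain rfl : s = 0 := by omega
      exact h)
    exact h4 1 le_rfl
  tfae_finish

end Pool.Agent.Results.MP_386e47_ag.RationalFourfolds
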